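import Pool.Agent.H.MP_e67678_an.Defs

namespace Pool.Agent.H.MP_e67678_an
open Filter Topology Finset

def FF {I J : Type} (A : J → Set (Finset I)) : Filter (Finset I) where
  sets := {U | ∃ (t : Finset J) (d : Finset I), ∀ s, d ⊆ s → (∀ j ∈ t, s ∈ A j) → s ∈ U}
  univ_sets := ⟨∅, ∅, fun _ _ _ => trivial⟩
  sets_of_superset := fun ⟨t, d, h⟩ hU => ⟨t, d, fun s a b => hU (h s a b)⟩
  inter_sets := by
    classical
    rintro U V ⟨t, d, h⟩ ⟨t', d', h'⟩
    exact ⟨t ∪ t', d ∪ d', fun s a b => ⟨h s (subset_union_left.trans a) fun j hj => b j (by simp [hj]),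
      h' s (subset_union_right.trans a) fun j hj => b j (by simp [hj])⟩⟩

lemma ev_FF {I J : Type} {A : J → Set (Finset I)} {p : Finset I → Prop} : (∀ᶠ s in FF A, p s) ↔
    ∃ (t : Finset J) (d : Finset I), ∀ s, d ⊆ s → (∀ j ∈ t, s ∈ A j) → p s := Iff.rfl

theorem dummy {I J E : Type} [NormedAddCommGroup E] [NormedSpace ℝ E] [CompleteSpace E]
    (A : J → Set (Finset I)) (x : I → E)
    (cof : ∀ (t : Finset J) (d : Finset I), ∃ s, d ⊆ s ∧ ∀ j ∈ t, s ∈ A j)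
    (ex : ∀ y, ∃! a : I → ℝ, Tendsto (fun s => ∑ i ∈ s, a i • x i) (FF A) (𝓝 y)) (i0 : I)
    (dc : ∀ f : E → I → ℝ, (∀ y, Tendsto (fun s => ∑ i ∈ s, f y i • x i) (FF A) (𝓝 y)) →
      ¬ Continuous fun y => f y i0) :
    ∃ (I E : Type) (_ : NormedAddCommGroup E) (_ : NormedSpace ℝ E) (_ : CompleteSpace E)
      (D : Set (Finset I)) (x : I → E), (∀ i, ∃ d ∈ D, i ∈ d) ∧
      (∀ d ∈ D, ∀ d' ∈ D, ∃ d'' ∈ D, d ⊆ d'' ∧ d' ⊆ d'') ∧ (∀ y, ∃! a, DSum D x a y) ∧
      ∃ f : I → E → ℝ, (∀ y, DSum D x (fun i => f i y) y) ∧ ∃ i, ¬ Continuous (f i) := by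
  classical
  let D : Set (Finset (I ⊕ J)) := {d | ∀ j ∈ d.toRight, d.toLeft ∈ A j}
  let X : I ⊕ J → E × lp (fun _ : J => ℝ) 1 :=
    Sum.elim (fun i => (x i, 0)) fun j => (0, lp.single 1 j 1)
  have e : ∀ (a : I ⊕ J → ℝ) (d : Finset (I ⊕ J)), ∑ i ∈ d, a i • X i =
      (∑ i ∈ d.toLeft, a (.inl i) • x i, ∑ j ∈ d.toRight, lp.single 1 j (a (.inr j))) := by
    intro a d
    rw [sum_sum_eq_sum_toLeft_add_sum_toRight]
    ext1 <;> simp [X, Prod.fst_sum, Prod.snd_sum, ← lp.single_smul]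
  have key : ∀ a y, DSum D X a y ↔
      Tendsto (fun s => ∑ i ∈ s, a (.inl i) • x i) (FF A) (𝓝 y.1) ∧ ∀ j, a (.inr j) = y.2 j := by
    intro a y
    simp only [DSum, e, Prod.norm_def, max_lt_iff, Prod.fst_sub, Prod.snd_sub]
    constructor
    · intro h
      refine ⟨Metric.tendsto_nhds.2 fun ε hε => ?_, fun j => ?_⟩
      · obtain ⟨d, -, h⟩ := h ε hε
        refine ev_FF.2 ⟨d.toRight, d.toLeft, fun s h1 h2 => ?_⟩
        simpa [dist_eq_norm'] using (h (s.disjSum d.toRight) (by simpa [D] using h2)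
          (subset_disjSum.2 ⟨h1, subset_rfl⟩)).1
      · refine eq_of_forall_dist_le fun ε hε => ?_
        obtain ⟨d, -, h⟩ := h ε hε
        obtain ⟨s, h1, h2⟩ := cof (insert j d.toRight) d.toLeft
        have := (h (s.disjSum (insert j d.toRight)) (by simpa [D] using h2)
          (subset_disjSum.2 ⟨h1, subset_insert _ _⟩)).2
        refine le_trans (le_of_eq ?_) ((lp.norm_apply_le_norm one_ne_zero _ j).trans this.le)
        rw [dist_eq_norm', toRight_disjSum, lp.coeFn_sub, Pi.sub_apply, lp.coeFn_sum, Finset.sum_apply]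
        simp [lp.single_apply, Pi.single_apply, -sum_insert]
    · rintro ⟨h1, h2⟩ ε hε
      obtain ⟨t, d, h⟩ := ev_FF.1 (Metric.tendsto_nhds.1 h1 ε hε)
      obtain ⟨t', h'⟩ := eventually_atTop.1
        (Metric.tendsto_nhds.1 (lp.hasSum_single (by simp) y.2) ε hε)
      obtain ⟨s, a1, a2⟩ := cof (t ∪ t') d
      refine ⟨s.disjSum (t ∪ t'), by simpa [D] using a2, fun d' b1 b2 => ?_⟩
      rw [disjSum_subset] at b2
      exact ⟨by simpa [dist_eq_norm'] using h _ (a1.trans b2.1) fun j hj => b1 j (b2.2 (by simp [hj])),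
        by simpa [dist_eq_norm', h2] using h' _ (subset_union_right.trans b2.2)⟩
  choose f hf hu using ex
  refine ⟨I ⊕ J, _, inferInstance, inferInstance, inferInstance, D, X, fun i => ?_,
    fun d _ d' _ => ?_, fun y => ⟨Sum.elim (f y.1) y.2, (key _ _).2 ⟨hf _, fun _ => rfl⟩,
      fun a ha => ?_⟩, fun i y => Sum.elim (f y.1) y.2 i,
    fun y => (key _ _).2 ⟨hf _, fun _ => rfl⟩, .inl i0, fun h => ?_⟩
  · obtain ⟨s, h1, h2⟩ := cof ({i} : Finset (I ⊕ J)).toRight ({i} : Finset (I ⊕ J)).toLeft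
    exact ⟨s.disjSum _, by simpa [D] using h2, subset_disjSum.2 ⟨h1, subset_rfl⟩ (mem_singleton_self i)⟩
  · obtain ⟨s, h1, h2⟩ := cof (d ∪ d').toRight (d ∪ d').toLeft
    exact ⟨s.disjSum (d ∪ d').toRight, by simpa [D] using h2,
      union_subset_iff.1 (subset_disjSum.2 ⟨h1, subset_rfl⟩)⟩
  · obtain ⟨h1, h2⟩ := (key _ _).1 ha
    funext i
    cases i with
    | inl i => exact congrFun (hu y.1 _ h1) i
    | inr j => exact h2 j
  · exact dc f hf (h.comp (f := fun y : E => (y, 0)) (by fun_prop))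

theorem hyers {G E : Type*} [NormedAddCommGroup G] [NormedSpace ℝ G] [NormedAddCommGroup E]
    [NormedSpace ℝ E] [CompleteSpace E] (Φ : G → E) {C η : ℝ} (η0 : 0 < η)
    (h : ∀ g k, ‖Φ (g + k) - Φ g - Φ k‖ ≤ C) (hb : ∀ g, ‖g‖ < η → ‖Φ g‖ ≤ C) :
    ∃ L : G →L[ℝ] E, ∀ g, ‖L g - Φ g‖ ≤ C := by
  let a : G → ℕ → E := fun g n => (1 / 2 ^ n : ℝ) • Φ ((2 ^ n : ℝ) • g)
  have h1 : ∀ g n, dist (a g n) (a g (n + 1)) ≤ C / 2 / 2 ^ n := by
    intro g n
    have e : a g (n + 1) - a g n = (1 / 2 ^ (n + 1) : ℝ) •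
        (Φ ((2 ^ n : ℝ) • g + (2 ^ n : ℝ) • g) - Φ ((2 ^ n : ℝ) • g) - Φ ((2 ^ n : ℝ) • g)) := by
      simp only [a]
      rw [← add_smul, ← mul_two, ← pow_succ]
      match_scalars <;> field_simp <;> ring
    rw [dist_eq_norm', e, norm_smul, Real.norm_of_nonneg (by positivity)]
    refine (mul_le_mul_of_nonneg_left (h _ _) (by positivity)).trans (le_of_eq ?_)
    field_simp
    ring
  choose l hl using fun g => cauchySeq_tendsto_of_complete (cauchySeq_of_le_geometric_two (h1 g))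
  have h2 : ∀ g, ‖l g - Φ g‖ ≤ C := fun g => by
    simpa [a, dist_eq_norm'] using dist_le_of_le_geometric_two_of_tendsto₀ (h1 g) (hl g)
  have h3 : ∀ g k, l (g + k) = l g + l k := by
    intro g k
    refine tendsto_nhds_unique (hl _) (((hl g).add (hl k)).congr_dist ?_)
    have : Tendsto (fun n : ℕ => (1 / 2 : ℝ) ^ n * C) atTop (𝓝 0) := by
      simpa using (tendsto_pow_atTop_nhds_zero_of_lt_one (r := (1 / 2 : ℝ)) (by norm_num)
        (by norm_num)).mul_const C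
    refine squeeze_zero (fun _ => dist_nonneg) (fun n => ?_) this
    simp only [a]
    rw [dist_eq_norm', ← smul_add, ← smul_sub, norm_smul, Real.norm_of_nonneg (by positivity),
      smul_add, ← sub_sub, div_pow, one_pow]
    exact mul_le_mul_of_nonneg_left (h _ _) (by positivity)
  refine ⟨(AddMonoidHom.mk' l h3).toRealLinearMap (AddMonoidHom.continuous_of_isBounded_nhds_zero _
    (Metric.ball_mem_nhds 0 η0) (isBounded_iff_forall_norm_le.2 ⟨C + C, ?_⟩)), h2⟩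
  rintro _ ⟨g, hg, rfl⟩
  exact (norm_le_norm_sub_add _ _).trans (add_le_add (h2 g) (hb g (by simpa using hg)))

theorem lin {I G E : Type*} [NormedAddCommGroup G] [NormedSpace ℝ G] [NormedAddCommGroup E]
    [NormedSpace ℝ E] [CompleteSpace E] (v : I → G) (s : I → E) {η : ℝ} (η0 : 0 < η) (d : Finset I)
    (rich : ∀ g, ∀ ε > 0, ∀ d : Finset I, ∃ e, Disjoint e d ∧ ‖∑ i ∈ e, v i - g‖ < ε)
    (h : ∀ e, Disjoint e d → ‖∑ i ∈ e, v i‖ < η → ‖∑ i ∈ e, s i‖ ≤ 2) :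
    ∃ L : G →L[ℝ] E, ∀ e, Disjoint e d → ‖∑ i ∈ e, s i - L (∑ i ∈ e, v i)‖ ≤ 12 := by
  classical
  have h1 : ∀ e e', Disjoint e d → Disjoint e' d → ‖∑ i ∈ e', v i - ∑ i ∈ e, v i‖ < η / 2 →
      ‖∑ i ∈ e', s i - ∑ i ∈ e, s i‖ ≤ 4 := by
    intro e e' a b c
    obtain ⟨f, f1, f2⟩ := rich (-∑ i ∈ e, v i) (η / 2) (by positivity) (d ∪ e ∪ e')
    simp only [disjoint_union_right] at f1
    rw [sub_neg_eq_add] at f2
    have k1 := h (f ∪ e) (disjoint_union_left.2 ⟨f1.1.1, a⟩) (by rw [sum_union f1.1.2]; linarith)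
    have k2 := h (f ∪ e') (disjoint_union_left.2 ⟨f1.1.1, b⟩) (by
      have := norm_add_le (∑ i ∈ f, v i + ∑ i ∈ e, v i) (∑ i ∈ e', v i - ∑ i ∈ e, v i)
      rw [add_add_sub_cancel] at this
      rw [sum_union f1.2]; linarith)
    rw [sum_union f1.1.2] at k1
    rw [sum_union f1.2] at k2
    have := norm_sub_le (∑ i ∈ f, s i + ∑ i ∈ e', s i) (∑ i ∈ f, s i + ∑ i ∈ e, s i)
    rw [add_sub_add_left_eq_sub] at this
    linarith
  choose c c1 c2 using fun g => rich g (η / 8) (by positivity) d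
  have h2 : ∀ g e, Disjoint e d → ‖∑ i ∈ e, v i - g‖ < η / 4 →
      ‖∑ i ∈ e, s i - ∑ i ∈ c g, s i‖ ≤ 4 := fun g e a b => h1 _ _ (c1 g) a (by
    have := norm_sub_le (∑ i ∈ e, v i - g) (∑ i ∈ c g, v i - g)
    rw [sub_sub_sub_cancel_right] at this
    linarith [c2 g])
  obtain ⟨L, hL⟩ := hyers (fun g => ∑ i ∈ c g, s i) (C := 8) (η := η / 4) (by positivity)
    (fun g k => by
      obtain ⟨f, f1, f2⟩ := rich k (η / 8) (by positivity) (d ∪ c g)
      simp only [disjoint_union_right] at f1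
      have k1 := h2 k f f1.1 (by linarith)
      have k2 := h2 (g + k) (f ∪ c g) (disjoint_union_left.2 ⟨f1.1, c1 g⟩) (by
        have := norm_add_le (∑ i ∈ f, v i - k) (∑ i ∈ c g, v i - g)
        rw [sub_add_sub_comm, add_comm k] at this
        rw [sum_union f1.2]; linarith [c2 g])
      rw [sum_union f1.2] at k2
      have := norm_sub_le (∑ i ∈ f, s i - ∑ i ∈ c k, s i)
        (∑ i ∈ f, s i + ∑ i ∈ c g, s i - ∑ i ∈ c (g + k), s i)
      refine le_trans (le_of_eq ?_) (this.trans (by linarith))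
      congr 1; abel)
    (fun g hg => by
      have := h2 g ∅ (by simp) (by simpa using hg)
      simp only [sum_empty, zero_sub, norm_neg] at this
      linarith)
  refine ⟨L, fun e he => ?_⟩
  have := norm_sub_le (∑ i ∈ e, s i - ∑ i ∈ c (∑ i ∈ e, v i), s i)
    (L (∑ i ∈ e, v i) - ∑ i ∈ c (∑ i ∈ e, v i), s i)
  rw [sub_sub_sub_cancel_right] at this
  linarith [h2 (∑ i ∈ e, v i) e he (by simpa using η0), hL (∑ i ∈ e, v i)]

end Pool.Agent.H.MP_e67678_an
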