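import Pool.Agent.H.MP_e67678_an.A

namespace Pool.Agent.H.MP_e67678_an
open Filter Topology Finset TopologicalSpace

lemma summ {β : ℕ → ℝ} {d : Finset ℕ} {C : ℝ} (h : ∀ e, Disjoint e d → |∑ i ∈ e, β i| ≤ C) :
    Summable fun i => |β i| := by
  refine summable_of_sum_le (fun _ => abs_nonneg _) (c := 2 * C + ∑ i ∈ d, |β i|) fun s => ?_
  have a := abs_le.1 (h ((s \ d).filter fun i => 0 ≤ β i)
    (disjoint_of_subset_left (filter_subset _ _) sdiff_disjoint))
  have b := abs_le.1 (h ((s \ d).filter fun i => ¬ 0 ≤ β i)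
    (disjoint_of_subset_left (filter_subset _ _) sdiff_disjoint))
  have c := sum_filter_add_sum_filter_not (s \ d) (fun i => 0 ≤ β i) fun i => |β i|
  rw [sum_congr rfl fun i hi => abs_of_nonneg (mem_filter.1 hi).2,
    sum_congr rfl fun i hi => abs_of_neg (not_le.1 (mem_filter.1 hi).2), sum_neg_distrib] at c
  have e := sum_le_sum_of_subset_of_nonneg (f := fun i => |β i|) (le_sdiff_sup (a := d) (b := s))
    fun _ _ _ => abs_nonneg _
  rw [sup_eq_union, sum_union sdiff_disjoint] at e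
  linarith

set_option maxHeartbeats 1000000 in
theorem mainB {E P : Type} [NormedAddCommGroup E] [NormedSpace ℝ E] [CompleteSpace E]
    [SecondCountableTopology E] (x : ℕ → E) (φ : E →L[ℝ] ℝ) (φ1 : ∀ y, |φ y| ≤ ‖y‖)
    (φx : ∀ i, φ (x i) = 1) (x3 : ∀ i, ‖x i‖ ≤ 3) (u : P → E) (c : ℕ → ℚ × Set E)
    (acc : ∀ p r, ∀ B ∈ countableBasis E, ∃ n : ℕ → ℕ, Tendsto n atTop atTop ∧
      (∀ k, c (n k) = (r, B)) ∧ Tendsto (fun k => x (n k)) atTop (𝓝 (u p)))
    (den : Dense (Submodule.span ℝ (Set.range u) : Set E))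
    (rig : ∀ L : E →L[ℝ] E, (∀ p, ∃ a : ℝ, L (u p) = a • u p) → ∃ a : ℝ, ∀ y, L y = a • y)
    (ind : ∀ β : ℕ → ℝ, (Summable fun i => |β i|) → HasSum (fun i => β i • x i) 0 → β = 0) :
    ∃ (J : Type) (A : J → Set (Finset ℕ)),
      (∀ (t : Finset J) (d : Finset ℕ), ∃ s, d ⊆ s ∧ ∀ j ∈ t, s ∈ A j) ∧
      (∀ y, ∃! a : ℕ → ℝ, Tendsto (fun s => ∑ i ∈ s, a i • x i) (FF A) (𝓝 y)) ∧
      ∀ f : E → ℕ → ℝ, (∀ y, Tendsto (fun s => ∑ i ∈ s, f y i • x i) (FF A) (𝓝 y)) →
        ¬ Continuous fun y => f y 0 := by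
  classical
  let R : Submodule ℝ E :=
    { carrier := {y | ∃ β : ℕ → ℝ, (Summable fun i => |β i|) ∧ HasSum (fun i => β i • x i) y}
      zero_mem' := ⟨0, by simp, by simp⟩
      add_mem' := fun ⟨a, a1, a2⟩ ⟨b, b1, b2⟩ =>
        ⟨a + b, (a1.of_abs.add b1.of_abs).abs, by simpa [add_smul] using a2.add b2⟩
      smul_mem' := fun r _ ⟨a, a1, a2⟩ =>
        ⟨r • a, (a1.of_abs.mul_left r).abs, by simpa [mul_smul] using a2.const_smul r⟩ }
  obtain ⟨C, hC⟩ := R.exists_isCompl
  obtain ⟨W, ⟨b⟩⟩ : ∃ W : Type, Nonempty (Module.Basis W ℝ C) := ⟨_, ⟨Module.Basis.ofVectorSpace ℝ C⟩⟩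
  let α : W → ℕ → ℝ := fun w i => if (b w : E) ∈ (c i).2 then (c i).1 else 0
  have sep : ∀ (t : Finset W) (a : t) p (r : ℚ), ∃ n : ℕ → ℕ, Tendsto n atTop atTop ∧
      (∀ k, (fun w : t => α w (n k) • x (n k)) = Pi.single a ((r : ℝ) • x (n k))) ∧
      Tendsto (fun k => x (n k)) atTop (𝓝 (u p)) := by
    intro t a p r
    obtain ⟨B, B1, B2, B3⟩ := (isBasis_countableBasis E).exists_subset_of_mem_open
      (a := (b a : E)) (u := ((t.erase a).image fun w => (b w : E) : Set E)ᶜ)
      (by simp [b.injective.eq_iff]) (Finset.finite_toSet _).isClosed.isOpen_compl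
    obtain ⟨n, n1, n2, n3⟩ := acc p r B B1
    refine ⟨n, n1, fun k => funext fun w => ?_, n3⟩
    by_cases h : w = a
    · simp [α, n2, h, B2]
    · have : (b w : E) ∉ B := fun h' => B3 h' (mem_coe.2 (mem_image_of_mem _
        (mem_erase.2 ⟨fun e => h (Subtype.ext e), w.2⟩)))
      simp [α, n2, h, this]
  have rich : ∀ (t : Finset W) (g : t → E), ∀ ε > 0, ∀ d : Finset ℕ, ∃ e, Disjoint e d ∧
      ‖∑ i ∈ e, (fun w : t => α w i • x i) - g‖ < ε := by
    intro t
    let S : AddSubmonoid (t → E) :=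
      { carrier := {g | ∀ ε > 0, ∀ d : Finset ℕ, ∃ e, Disjoint e d ∧
          ‖∑ i ∈ e, (fun w : t => α w i • x i) - g‖ < ε}
        zero_mem' := fun ε hε d => ⟨∅, by simp, by simpa⟩
        add_mem' := fun {g k} hg hk ε hε d => by
          obtain ⟨e, e1, e2⟩ := hg (ε / 2) (by positivity) d
          obtain ⟨f, f1, f2⟩ := hk (ε / 2) (by positivity) (d ∪ e)
          rw [disjoint_union_right] at f1
          refine ⟨e ∪ f, disjoint_union_left.2 ⟨e1, f1.1⟩, ?_⟩
          rw [sum_union f1.2.symm, add_sub_add_comm]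
          exact (norm_add_le _ _).trans_lt (by linarith) }
    have Sc : IsClosed (S : Set (t → E)) := isClosed_of_closure_subset fun g hg ε hε d => by
      obtain ⟨k, hk, h⟩ := Metric.mem_closure_iff.1 hg (ε / 2) (by positivity)
      obtain ⟨e, e1, e2⟩ := hk (ε / 2) (by positivity) d
      rw [dist_eq_norm'] at h
      exact ⟨e, e1, (norm_sub_le_norm_sub_add_norm_sub _ k _).trans_lt (by linarith)⟩
    have S1 : ∀ (a : t) y, Pi.single a y ∈ S := by
      intro a y
      have cs : Continuous fun y : E => (Pi.single a y : t → E) :=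
        (ContinuousLinearMap.single ℝ (fun _ : t => E) a).continuous
      refine den.induction (P := fun y : E => (Pi.single a y : t → E) ∈ S) (fun y hy => ?_) (Sc.preimage cs) y
      suffices ∀ r : ℝ, (Pi.single a (r • y) : t → E) ∈ S by simpa using this 1
      induction hy using Submodule.span_induction with
      | mem y hy =>
        obtain ⟨p, rfl⟩ := hy
        intro r
        refine Rat.denseRange_cast.induction_on (p := fun r : ℝ => (Pi.single a (r • u p) : t → E) ∈ S) r
          (Sc.preimage (cs.comp (f := fun r : ℝ => r • u p) (by fun_prop))) fun r ε hε d => ?_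
        obtain ⟨n, n1, n2, n3⟩ := sep t a p r
        obtain ⟨k, k1, k2⟩ := ((Metric.tendsto_nhds.1 ((cs.tendsto _).comp (n3.const_smul (r : ℝ)))
          ε hε).and (n1.eventually (eventually_gt_atTop (d.sup id)))).exists
        refine ⟨{n k}, disjoint_singleton_left.2 fun h => k2.not_ge (le_sup (f := id) h), ?_⟩
        rw [sum_singleton, n2, ← dist_eq_norm]
        exact k1
      | zero => simp
      | add y z _ _ h1 h2 => intro r; rw [smul_add, Pi.single_add]; exact S.add_mem (h1 r) (h2 r)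
      | smul s y _ h => intro r; rw [smul_smul]; exact h _
    intro g
    rw [← univ_sum_single g]
    exact S.sum_mem fun a _ => S1 a _
  have near : ∀ (t : Finset W), ∀ ε > 0, ∀ d : Finset ℕ, ∃ s, d ⊆ s ∧
      ∀ w ∈ t, ‖∑ i ∈ s, α w i • x i - b w‖ < ε := by
    intro t ε hε d
    obtain ⟨e, e1, e2⟩ := rich t (fun w => b w - ∑ i ∈ d, α w i • x i) ε hε d
    refine ⟨e ∪ d, subset_union_right, fun w hw => ?_⟩
    refine lt_of_le_of_lt (le_of_eq ?_) ((norm_le_pi_norm _ ⟨w, hw⟩).trans_lt e2)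
    rw [sum_union e1, Pi.sub_apply, Finset.sum_apply]
    congr 1; abel
  have eta : ∀ t : Finset (W × ℕ), ∃ η > 0, ∀ j ∈ t, 2 * η ≤ 1 / ((j.2 : ℝ) + 1) := fun t =>
    ⟨1 / ((t.sup Prod.snd : ℕ) + 1) / 2, by positivity, fun j hj => by
      have : (j.2 : ℝ) ≤ (t.sup Prod.snd : ℕ) := by exact_mod_cast le_sup (f := Prod.snd) hj
      rw [mul_div_cancel₀ _ two_ne_zero]; gcongr⟩
  let A : W × ℕ → Set (Finset ℕ) := fun j =>
    {s | ‖∑ i ∈ s, α j.1 i • x i - b j.1‖ < 1 / ((j.2 : ℝ) + 1)}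
  have cof : ∀ (t : Finset (W × ℕ)) (d : Finset ℕ), ∃ s, d ⊆ s ∧ ∀ j ∈ t, s ∈ A j := by
    intro t d
    obtain ⟨η, η0, hη⟩ := eta t
    obtain ⟨s, s1, s2⟩ := near (t.image Prod.fst) η η0 d
    exact ⟨s, s1, fun j hj => (s2 _ (mem_image_of_mem _ hj)).trans_le (by linarith [hη j hj])⟩
  haveI : (FF A).NeBot := forall_mem_nonempty_iff_neBot.1 fun U ⟨t, d, h⟩ =>
    (cof t d).imp fun s hs => h s hs.1 hs.2
  have le : FF A ≤ atTop := fun U hU => by
    obtain ⟨d, h⟩ := mem_atTop_sets.1 hU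
    exact ⟨∅, d, fun s hs _ => h s hs⟩
  have tα : ∀ w, Tendsto (fun s => ∑ i ∈ s, α w i • x i) (FF A) (𝓝 (b w)) := fun w =>
    Metric.tendsto_nhds.2 fun ε hε => by
      obtain ⟨n, hn⟩ := exists_nat_one_div_lt hε
      exact ev_FF.2 ⟨{(w, n)}, ∅, fun s _ h => by
        have := Set.mem_ofPred_eq ▸ h _ (mem_singleton_self _)
        rw [dist_eq_norm]; exact this.trans hn⟩
  have tc : ∀ (t : Finset W) (r : W → ℝ) (β : ℕ → ℝ) y, HasSum (fun i => β i • x i) y →
      Tendsto (fun s => ∑ i ∈ s, (β i + ∑ w ∈ t, r w * α w i) • x i) (FF A)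
        (𝓝 (y + ∑ w ∈ t, r w • (b w : E))) := by
    intro t r β y h
    refine ((Tendsto.mono_left h le).add
      (tendsto_finsetSum t fun w _ => (tα w).const_smul (r w))).congr fun s => ?_
    simp only [add_smul, sum_add_distrib, sum_smul, smul_sum, mul_smul]
    rw [sum_comm]
  have uq : ∀ a : ℕ → ℝ, Tendsto (fun s => ∑ i ∈ s, a i • x i) (FF A) (𝓝 0) → a = 0 := by
    intro a ha
    obtain ⟨t', d0, h0⟩ := ev_FF.1 (Metric.tendsto_nhds.1 ha 1 one_pos)
    obtain ⟨η, η0, hη⟩ := eta t'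
    obtain ⟨t, ht⟩ : ∃ t, t = t'.image Prod.fst := ⟨_, rfl⟩
    obtain ⟨d, d1, d2⟩ := near t η η0 d0
    obtain ⟨L, hL⟩ := lin (fun i (w : t) => α w i • x i) (fun i => a i • x i) η0 d (rich t)
      fun e e1 e2 => by
        have k1 := h0 d d1 fun j hj =>
          (d2 _ (ht ▸ mem_image_of_mem _ hj)).trans_le (by linarith [hη j hj])
        have k2 := h0 (e ∪ d) (d1.trans subset_union_right) fun j hj => by
          have m : j.1 ∈ t := ht ▸ mem_image_of_mem _ hj
          have := (norm_le_pi_norm _ ⟨_, m⟩).trans_lt e2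
          rw [Finset.sum_apply] at this
          show ‖_‖ < _
          rw [sum_union e1, add_sub_assoc]
          exact (norm_add_le _ _).trans_lt (by linarith [hη j hj, d2 _ m])
        rw [dist_zero_right] at k1 k2
        rw [sum_union e1] at k2
        have := norm_sub_le (∑ i ∈ e, a i • x i + ∑ i ∈ d, a i • x i) (∑ i ∈ d, a i • x i)
        rw [add_sub_cancel_right] at this
        linarith
    have : ∀ w : t, ∃ r : ℝ, ∀ y, L (Pi.single w y) = r • y := by
      intro w
      let M : E →L[ℝ] E := L ∘L ContinuousLinearMap.single ℝ (fun _ : t => E) w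
      refine rig M fun p => ⟨φ (M (u p)), eq_of_forall_dist_le fun ε hε => ?_⟩
      obtain ⟨N, hN⟩ := exists_nat_gt (48 / ε)
      have N0 : (0 : ℝ) < N := lt_trans (by positivity) hN
      obtain ⟨n, n1, n2, n3⟩ := sep t w p N
      refine le_of_tendsto (f := fun k => dist (M (x (n k))) (φ (M (x (n k))) • x (n k)))
        (((M.continuous.tendsto _).comp n3).dist
          (((φ.continuous.tendsto _).comp ((M.continuous.tendsto _).comp n3)).smul n3))
        ((n1.eventually (eventually_gt_atTop (d.sup id))).mono fun k k2 => ?_)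
      have k1 := hL {n k} (disjoint_singleton_left.2 fun h => k2.not_ge (le_sup (f := id) h))
      rw [sum_singleton, sum_singleton, n2] at k1
      have e1 : L (Pi.single w (((N : ℚ) : ℝ) • x (n k))) = (N : ℝ) • M (x (n k)) := by
        rw [← map_smul, Rat.cast_natCast]; rfl
      rw [e1] at k1
      have k3 := (φ1 _).trans k1
      simp only [map_sub, map_smul, φx, smul_eq_mul, mul_one] at k3
      have e2 : (N : ℝ) • (M (x (n k)) - φ (M (x (n k))) • x (n k)) =
          (a (n k) - N * φ (M (x (n k)))) • x (n k) - (a (n k) • x (n k) - (N : ℝ) • M (x (n k))) := by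
        module
      have k4 := norm_sub_le ((a (n k) - N * φ (M (x (n k)))) • x (n k))
        (a (n k) • x (n k) - (N : ℝ) • M (x (n k)))
      rw [← e2, norm_smul, norm_smul, Real.norm_of_nonneg N0.le, Real.norm_eq_abs] at k4
      have k5 := mul_le_mul k3 (x3 (n k)) (norm_nonneg _) (by norm_num)
      rw [div_lt_iff₀ hε] at hN
      rw [dist_eq_norm]
      nlinarith
    choose! r hr using fun w (hw : w ∈ t) => this ⟨w, hw⟩
    have s1 : Summable fun i => |a i - ∑ w ∈ t, r w * α w i| := summ (d := d) (C := 12) fun e he => by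
      refine le_trans (le_of_eq ?_) ((φ1 _).trans (hL e he))
      rw [← univ_sum_single (∑ i ∈ e, fun w : t => α w i • x i), map_sum L]
      simp only [hr _ (Subtype.prop _), Finset.sum_apply, map_sub, map_sum, map_smul, φx, smul_eq_mul,
        mul_one, sum_sub_distrib, mul_sum]
      rw [sum_comm, sum_coe_sort t fun w => ∑ i ∈ e, r w * α w i]
    obtain ⟨y, hy⟩ : Summable fun i => (a i - ∑ w ∈ t, r w * α w i) • x i :=
      (s1.mul_right 3).of_norm_bounded fun i => by
        rw [norm_smul]; exact mul_le_mul_of_nonneg_left (x3 i) (abs_nonneg _)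
    have s2 := tc t r _ y hy
    simp only [sub_add_cancel] at s2
    have s3 := tendsto_nhds_unique s2 ha
    have s4 : y ∈ C := by
      rw [eq_neg_of_add_eq_zero_left s3]
      exact C.neg_mem (C.sum_mem fun w _ => C.smul_mem _ (b w).2)
    have s5 : y = 0 := (Submodule.disjoint_def.1 hC.disjoint) y ⟨_, s1, hy⟩ s4
    rw [s5, zero_add] at s3
    have s6 := linearIndependent_iff'.1 b.linearIndependent t r (Subtype.ext (by simpa using s3))
    funext i
    simpa [sum_eq_zero fun w hw => show r w * α w i = 0 by rw [s6 w hw, zero_mul]]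
      using congrFun (ind _ s1 (s5 ▸ hy)) i
  have uq2 : ∀ (a a' : ℕ → ℝ) y, Tendsto (fun s => ∑ i ∈ s, a i • x i) (FF A) (𝓝 y) →
      Tendsto (fun s => ∑ i ∈ s, a' i • x i) (FF A) (𝓝 y) → a = a' := fun a a' y h h' =>
    sub_eq_zero.1 (uq _ (by simpa [sub_smul] using h.sub h'))
  refine ⟨W × ℕ, A, cof, fun y => ?_, fun f hf hc => ?_⟩
  · obtain ⟨y, ⟨β, -, hβ⟩, z, hz, rfl⟩ := Submodule.mem_sup.1 (hC.sup_eq_top ▸ Submodule.mem_top (x := y))
    have e : ∑ w ∈ (b.repr ⟨z, hz⟩).support, b.repr ⟨z, hz⟩ w • (b w : E) = z := by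
      simpa [Finsupp.linearCombination_apply, Finsupp.sum] using
        congrArg Subtype.val (b.linearCombination_repr ⟨z, hz⟩)
    have := tc (b.repr ⟨z, hz⟩).support (b.repr ⟨z, hz⟩) β y hβ
    rw [e] at this
    exact ⟨_, this, fun a ha => uq2 _ _ _ ha this⟩
  · have f1 : ∀ j, f (x j) = Pi.single j 1 := fun j => uq2 _ _ _ (hf _) (Tendsto.mono_left (by
      have := hasSum_single (f := fun i => (Pi.single j 1 : ℕ → ℝ) i • x i) j fun i hi => by simp [hi]
      rw [Pi.single_eq_same, one_smul] at this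
      exact this) le)
    have f2 : ∀ y, f y 0 = 0 := by
      intro y
      refine den.induction (P := fun y => f y 0 = 0) (fun y hy => ?_)
        (isClosed_eq hc continuous_const) y
      induction hy using Submodule.span_induction with
      | mem y hy =>
        obtain ⟨p, rfl⟩ := hy
        obtain ⟨B, B1, -⟩ := (isBasis_countableBasis E).exists_subset_of_mem_open
          (Set.mem_univ (0 : E)) isOpen_univ
        obtain ⟨n, n1, -, n3⟩ := acc p 0 B B1
        refine tendsto_nhds_unique ((hc.tendsto _).comp n3) (tendsto_const_nhds.congr'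
          ((n1.eventually (eventually_gt_atTop 0)).mono fun k hk => ?_))
        simp [f1, hk.ne]
      | zero => exact congrFun (uq _ (hf 0)) 0
      | add y z _ _ h1 h2 =>
        rw [uq2 _ (f y + f z) _ (hf _) (by simpa [add_smul, sum_add_distrib] using (hf y).add (hf z))]
        simp [h1, h2]
      | smul s y _ h =>
        rw [uq2 _ (s • f y) _ (hf _) (by simpa [mul_smul, smul_sum] using (hf y).const_smul s)]
        simp [h]
    simpa [f1] using f2 (x 0)

end Pool.Agent.H.MP_e67678_an
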