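import Mathlib

namespace Pool.Agent.H.MP_e67678_an

/-- y is the D-sum of the family a i • x i. -/
def DSum {I E : Type} [NormedAddCommGroup E] [NormedSpace ℝ E] (D : Set (Finset I)) (x : I → E)
    (a : I → ℝ) (y : E) : Prop :=
  ∀ ε > 0, ∃ d ∈ D, ∀ d' ∈ D, d ⊆ d' → ‖y - ∑ i ∈ d', a i • x i‖ < ε

end Pool.Agent.H.MP_e67678_an
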